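import Pool.Agent.H8.MC.Targets

/-!
# The number of the representatives
-/

set_option autoImplicit false

namespace Pool.Agent.H95.MC

open Pool.Agent.H8.MC Pool.Agent.H69.VR Pool.Agent.H8.VR Pool.Agent.H69.Sp

/-- the formula -/
def cntF (L : ℕ) : C2 :=
  .and (.neg (.and (.un 0 false) (.neg (.and (.cnt L 1 0 true (.bi 1 false true))
      (.neg (.cnt (L + 1) 1 0 true (.bi 1 false true)))))))
    (.and (.neg (.and (.neg (.un 0 false)) (.cnt 1 1 0 true (.bi 1 false true))))
      (.and (.cnt 1 1 0 false (.bi 1 false true)) (.neg (.cnt 2 1 0 false (.bi 1 false true)))))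

theorem cntF_sat (L : ℕ) {A : Type} (P : ℕ → A → Prop) (R : ℕ → A → A → Prop) (v : Bool → A) :
    (cntF L).Sat P R v ↔ (P 0 (v false) → {y | R 1 (v false) y}.ncard = L) ∧
      (¬ P 0 (v false) → {y | R 1 (v false) y}.ncard = 0) ∧ {x | R 1 x (v true)}.ncard = 1 := by
  have h1 : ∀ k, (C2.cnt k 1 0 true (.bi 1 false true)).Sat P R v ↔
      k ≤ {y | R 1 (v false) y}.ncard := by
    intro k
    have h : {a | (C2.bi 1 false true).Sat P R (Function.update v true a)} =
        {y | R 1 (v false) y} := by
      ext a
      simp [C2.Sat, Function.update]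
    simp only [C2.Sat] at h ⊢
    rw [h]
    exact and_iff_left (Nat.modEq_one)
  have h2 : ∀ k, (C2.cnt k 1 0 false (.bi 1 false true)).Sat P R v ↔
      k ≤ {x | R 1 x (v true)}.ncard := by
    intro k
    have h : {a | (C2.bi 1 false true).Sat P R (Function.update v false a)} =
        {x | R 1 x (v true)} := by
      ext a
      simp [C2.Sat, Function.update]
    simp only [C2.Sat] at h ⊢
    rw [h]
    exact and_iff_left (Nat.modEq_one)
  have h3 : (cntF L).Sat P R v ↔ ¬ (P 0 (v false) ∧ ¬ (L ≤ {y | R 1 (v false) y}.ncard ∧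
      ¬ L + 1 ≤ {y | R 1 (v false) y}.ncard)) ∧
      (¬ (¬ P 0 (v false) ∧ 1 ≤ {y | R 1 (v false) y}.ncard) ∧
      (1 ≤ {x | R 1 x (v true)}.ncard ∧ ¬ 2 ≤ {x | R 1 x (v true)}.ncard)) := by
    rw [← h1, ← h1, ← h1, ← h2, ← h2]
    exact Iff.rfl
  rw [h3]
  by_cases h : P 0 (v false)
  · simp only [h, true_and, not_true, false_and, not_false_eq_true, forall_true_left, not_not,
      IsEmpty.forall_iff]
    omega
  · simp only [h, false_and, not_false_eq_true, true_and, forall_true_left, IsEmpty.forall_iff]
    omega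

theorem pf_CNT : T_CNT := by
  intro L
  refine ⟨cntF L, fun n P R hn => ?_⟩
  have hS : ∀ R' : Fin n → Fin n → Prop, (∀ v, (cntF L).Sat P (Function.update R 1 R') v) ↔
      (∀ x, P 0 x → {y | R' x y}.ncard = L) ∧ (∀ x, ¬ P 0 x → {y | R' x y}.ncard = 0) ∧
        ∀ y, {x | R' x y}.ncard = 1 := by
    intro R'
    have h : ∀ v, (cntF L).Sat P (Function.update R 1 R') v ↔
        (P 0 (v false) → {y | R' (v false) y}.ncard = L) ∧
        (¬ P 0 (v false) → {y | R' (v false) y}.ncard = 0) ∧ {x | R' x (v true)}.ncard = 1 := by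
      intro v
      rw [cntF_sat]
      simp only [Function.update_self]
    simp only [h]
    constructor
    · intro h
      exact ⟨fun x => (h fun _ => x).1, fun x => (h fun _ => x).2.1, fun x => (h fun _ => x).2.2⟩
    · rintro ⟨h1, h2, h3⟩ v
      exact ⟨h1 _, h2 _, h3 _⟩
  simp only [hS]
  classical
  constructor
  · rintro ⟨R', h1, h2, h3⟩
    have e1 : ∑ x : Fin n, {y | R' x y}.ncard = ∑ y : Fin n, {x | R' x y}.ncard := by
      have a1 : ∀ x : Fin n, {y | R' x y}.ncard =
          (Finset.bipartiteAbove R' Finset.univ x).card := by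
        intro x
        rw [← Set.ncard_coe_finset]
        congr 1
        ext y
        simp [Finset.bipartiteAbove]
      have a2 : ∀ y : Fin n, {x | R' x y}.ncard =
          (Finset.bipartiteBelow R' Finset.univ y).card := by
        intro x
        rw [← Set.ncard_coe_finset]
        congr 1
        ext y
        simp [Finset.bipartiteBelow]
      rw [Finset.sum_congr rfl fun x _ => a1 x, Finset.sum_congr rfl fun y _ => a2 y]
      exact Finset.sum_card_bipartiteAbove_eq_sum_card_bipartiteBelow R'
    have e2 : ∑ y : Fin n, {x | R' x y}.ncard = n := by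
      rw [Finset.sum_congr rfl fun y _ => h3 y]
      simp
    have e3 : ∑ x : Fin n, {y | R' x y}.ncard = L * Nat.card {x // P 0 x} := by
      have a3 : ∀ x : Fin n, {y | R' x y}.ncard = if P 0 x then L else 0 := by
        intro x
        by_cases hx : P 0 x
        · rw [if_pos hx, h1 x hx]
        · rw [if_neg hx, h2 x hx]
      rw [Finset.sum_congr rfl fun x _ => a3 x, ← Finset.sum_filter, Finset.sum_const, smul_eq_mul,
        mul_comm, Nat.card_eq_fintype_card, Fintype.card_subtype]
    rw [← e3, e1, e2]
  · intro h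
    have hc : Nat.card (Fin n) = Nat.card ({x // P 0 x} × Fin L) := by
      rw [Nat.card_prod, Nat.card_fin, Nat.card_fin, mul_comm]
      exact h
    have e : Fin n ≃ {x // P 0 x} × Fin L :=
      Fintype.equivOfCardEq (by rw [← Nat.card_eq_fintype_card, ← Nat.card_eq_fintype_card, hc])
    refine ⟨fun x y => ((e y).1 : Fin n) = x, fun x hx => ?_, fun x hx => ?_, fun y => ?_⟩
    · have h1 : {y | ((e y).1 : Fin n) = x} = (fun i => e.symm (⟨x, hx⟩, i)) '' Set.univ := by
        ext y
        simp only [Set.mem_ofPred_eq, Set.image_univ, Set.mem_range]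
        constructor
        · intro h
          refine ⟨(e y).2, ?_⟩
          rw [Equiv.symm_apply_eq]
          exact Prod.ext (Subtype.ext h.symm) rfl
        · rintro ⟨i, rfl⟩
          rw [Equiv.apply_symm_apply]
      rw [h1, Set.ncard_image_of_injective, Set.ncard_univ, Nat.card_fin]
      intro i j hij
      have := e.symm.injective hij
      exact (Prod.ext_iff.1 this).2
    · have h1 : {y | ((e y).1 : Fin n) = x} = ∅ := by
        ext y
        simp only [Set.mem_ofPred_eq, Set.mem_empty_iff_false, iff_false]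
        intro h
        exact hx (h ▸ (e y).1.2)
      rw [h1, Set.ncard_empty]
    · have h1 : {x | ((e y).1 : Fin n) = x} = {((e y).1 : Fin n)} := by
        ext x
        simp [eq_comm]
      rw [h1, Set.ncard_singleton]

end Pool.Agent.H95.MC
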