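import Pool.Agent.H8.MC.Targets

/-!
# Closure of the definable properties under the operations of logic
-/

set_option autoImplicit false

namespace Pool.Agent.H95.MC

open Pool.Agent.H8.MC Pool.Agent.H69.VR Pool.Agent.H8.VR Pool.Agent.H69.Sp

/-- properties of elements and sets in a structure -/
abbrev PT : Type 1 := (A : Type) → (ℕ → A → Prop) → (A → A → Prop) → (ℕ → A) → (ℕ → Set A) → Prop

theorem msc_congr {p q : PT} (hp : MD p) (h : ∀ A P E e V, p A P E e V ↔ q A P E e V) : MD q := by
  obtain ⟨φ, h1, h2⟩ := hp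
  exact ⟨φ, h1, fun A P R e V => (h2 A P R e V).trans (h A P (R 0) e V)⟩

theorem msc_un (i x : ℕ) : MD fun _ P _ e _ => P i (e x) :=
  ⟨.un i x, trivial, fun _ _ _ _ _ => Iff.rfl⟩

theorem msc_bi (x y : ℕ) : MD fun _ _ E e _ => E (e x) (e y) :=
  ⟨.bi 0 x y, rfl, fun _ _ _ _ _ => Iff.rfl⟩

theorem msc_eq (x y : ℕ) : MD fun _ _ _ e _ => e x = e y :=
  ⟨.eq x y, trivial, fun _ _ _ _ _ => Iff.rfl⟩

theorem msc_mem (x X : ℕ) : MD fun _ _ _ e V => e x ∈ V X :=
  ⟨.mem x X, trivial, fun _ _ _ _ _ => Iff.rfl⟩

theorem msc_not {p : PT} (hp : MD p) : MD fun A P E e V => ¬ p A P E e V := by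
  obtain ⟨φ, h1, h2⟩ := hp
  exact ⟨.neg φ, h1, fun A P R e V => not_congr (h2 A P R e V)⟩

theorem msc_and {p q : PT} (hp : MD p) (hq : MD q) :
    MD fun A P E e V => p A P E e V ∧ q A P E e V := by
  obtain ⟨φ, h1, h2⟩ := hp
  obtain ⟨ψ, h3, h4⟩ := hq
  exact ⟨.and φ ψ, ⟨h1, h3⟩, fun A P R e V => and_congr (h2 A P R e V) (h4 A P R e V)⟩

theorem msc_const (q : Prop) : MD fun _ _ _ _ _ => q := by
  by_cases hq : q
  · exact msc_congr (msc_eq 0 0) fun A P E e V => ⟨fun _ => hq, fun _ => rfl⟩
  · exact msc_congr (msc_not (msc_eq 0 0)) fun A P E e V => ⟨fun h => absurd rfl h, fun h => absurd h hq⟩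

theorem msc_or {p q : PT} (hp : MD p) (hq : MD q) :
    MD fun A P E e V => p A P E e V ∨ q A P E e V :=
  msc_congr (msc_not (msc_and (msc_not hp) (msc_not hq))) fun A P E e V => by
    by_cases h1 : p A P E e V <;> by_cases h2 : q A P E e V <;> simp [h1, h2]

theorem msc_imp {p q : PT} (hp : MD p) (hq : MD q) :
    MD fun A P E e V => p A P E e V → q A P E e V :=
  msc_congr (msc_or (msc_not hp) hq) fun A P E e V => by
    by_cases h1 : p A P E e V <;> by_cases h2 : q A P E e V <;> simp [h1, h2]

theorem msc_ex (x : ℕ) {p : PT} (hp : MD p) :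
    MD fun A P E e V => ∃ a, p A P E (Function.update e x a) V := by
  obtain ⟨φ, h1, h2⟩ := hp
  exact ⟨.ex x φ, h1, fun A P R e V => exists_congr fun a => h2 A P R _ V⟩

theorem msc_all (x : ℕ) {p : PT} (hp : MD p) :
    MD fun A P E e V => ∀ a, p A P E (Function.update e x a) V :=
  msc_congr (msc_not (msc_ex x (msc_not hp))) fun A P E e V => by
    simp only [not_exists, not_not]

theorem msc_exS (X : ℕ) {p : PT} (hp : MD p) :
    MD fun A P E e V => ∃ S, p A P E e (Function.update V X S) := by
  obtain ⟨φ, h1, h2⟩ := hp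
  exact ⟨.exS X φ, h1, fun A P R e V => exists_congr fun a => h2 A P R e _⟩

theorem msc_allS (X : ℕ) {p : PT} (hp : MD p) :
    MD fun A P E e V => ∀ S, p A P E e (Function.update V X S) :=
  msc_congr (msc_not (msc_exS X (msc_not hp))) fun A P E e V => by
    simp only [not_exists, not_not]

theorem msc_list {ι : Type} (p : ι → PT) (hp : ∀ i, MD (p i)) (l : List ι) :
    MD fun A P E e V => ∀ i ∈ l, p i A P E e V := by
  induction l with
  | nil => exact msc_congr (msc_const True) fun A P E e V => by simp
  | cons i l ih => exact msc_congr (msc_and (hp i) ih) fun A P E e V => by simp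

theorem msc_finAll (ι : Type) [Finite ι] (p : ι → PT) (hp : ∀ i, MD (p i)) :
    MD fun A P E e V => ∀ i, p i A P E e V := by
  have := Fintype.ofFinite ι
  exact msc_congr (msc_list p hp Finset.univ.toList) fun A P E e V => by simp

theorem msc_finEx (ι : Type) [Finite ι] (p : ι → PT) (hp : ∀ i, MD (p i)) :
    MD fun A P E e V => ∃ i, p i A P E e V :=
  msc_congr (msc_not (msc_finAll ι (fun i A P E e V => ¬ p i A P E e V) fun i => msc_not (hp i)))
    fun A P E e V => by
      simp only [not_forall, not_not]

theorem msc_exs (h : ℕ) : ∀ {p : PT}, MD p → MD fun A P E e V => ∃ f : Fin h → A,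
    p A P E (fun j => if hj : j < h then f ⟨j, hj⟩ else e j) V := by
  induction h with
  | zero =>
    intro p hp
    refine msc_congr hp fun A P E e V => ?_
    constructor
    · intro h
      refine ⟨fun i => i.elim0, ?_⟩
      simpa using h
    · rintro ⟨f, h⟩
      simpa using h
  | succ h ih =>
    intro p hp
    refine msc_congr (ih (msc_ex h hp)) fun A P E e V => ?_
    constructor
    · rintro ⟨f, a, hf⟩
      refine ⟨fun j => if hj : j.1 < h then f ⟨j.1, hj⟩ else a, ?_⟩
      have h1 : (fun j => if hj : j < h + 1 then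
          (fun j : Fin (h + 1) => if hj : j.1 < h then f ⟨j.1, hj⟩ else a) ⟨j, hj⟩ else e j) =
          Function.update (fun j => if hj : j < h then f ⟨j, hj⟩ else e j) h a := by
        funext j
        rcases lt_trichotomy j h with hj | rfl | hj
        · rw [Function.update_of_ne hj.ne, dif_pos (by omega), dif_pos hj]
          exact dif_pos hj
        · rw [Function.update_self, dif_pos (by omega)]
          exact dif_neg (lt_irrefl _)
        · rw [Function.update_of_ne hj.ne', dif_neg (by omega), dif_neg (by omega)]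
      rw [h1]
      exact hf
    · rintro ⟨f, hf⟩
      refine ⟨fun j => f ⟨j.1, by omega⟩, f ⟨h, by omega⟩, ?_⟩
      have h1 : (fun j => if hj : j < h + 1 then f ⟨j, hj⟩ else e j) =
          Function.update (fun j => if hj : j < h then (fun j : Fin h => f ⟨j.1, by omega⟩) ⟨j, hj⟩
            else e j) h (f ⟨h, by omega⟩) := by
        funext j
        rcases lt_trichotomy j h with hj | rfl | hj
        · rw [Function.update_of_ne hj.ne, dif_pos (by omega), dif_pos hj]
        · rw [Function.update_self, dif_pos (by omega)]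
        · rw [Function.update_of_ne hj.ne', dif_neg (by omega), dif_neg (by omega)]
      rw [h1] at hf
      exact hf

theorem msc_exsS (h : ℕ) : ∀ {p : PT}, MD p → MD fun A P E e V => ∃ f : Fin h → Set A,
    p A P E e (fun j => if hj : j < h then f ⟨j, hj⟩ else V j) := by
  induction h with
  | zero =>
    intro p hp
    refine msc_congr hp fun A P E e V => ?_
    constructor
    · intro h
      refine ⟨fun i => i.elim0, ?_⟩
      simpa using h
    · rintro ⟨f, h⟩
      simpa using h
  | succ h ih =>
    intro p hp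
    refine msc_congr (ih (msc_exS h hp)) fun A P E e V => ?_
    constructor
    · rintro ⟨f, a, hf⟩
      refine ⟨fun j => if hj : j.1 < h then f ⟨j.1, hj⟩ else a, ?_⟩
      have h1 : (fun j => if hj : j < h + 1 then
          (fun j : Fin (h + 1) => if hj : j.1 < h then f ⟨j.1, hj⟩ else a) ⟨j, hj⟩ else V j) =
          Function.update (fun j => if hj : j < h then f ⟨j, hj⟩ else V j) h a := by
        funext j
        rcases lt_trichotomy j h with hj | rfl | hj
        · rw [Function.update_of_ne hj.ne, dif_pos (by omega), dif_pos hj]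
          exact dif_pos hj
        · rw [Function.update_self, dif_pos (by omega)]
          exact dif_neg (lt_irrefl _)
        · rw [Function.update_of_ne hj.ne', dif_neg (by omega), dif_neg (by omega)]
      rw [h1]
      exact hf
    · rintro ⟨f, hf⟩
      refine ⟨fun j => f ⟨j.1, by omega⟩, f ⟨h, by omega⟩, ?_⟩
      have h1 : (fun j => if hj : j < h + 1 then f ⟨j, hj⟩ else V j) =
          Function.update (fun j => if hj : j < h then (fun j : Fin h => f ⟨j.1, by omega⟩) ⟨j, hj⟩
            else V j) h (f ⟨h, by omega⟩) := by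
        funext j
        rcases lt_trichotomy j h with hj | rfl | hj
        · rw [Function.update_of_ne hj.ne, dif_pos (by omega), dif_pos hj]
        · rw [Function.update_self, dif_pos (by omega)]
        · rw [Function.update_of_ne hj.ne', dif_neg (by omega), dif_neg (by omega)]
      rw [h1] at hf
      exact hf

theorem pf_MSC : T_MSC :=
  ⟨msc_un, msc_bi, msc_eq, msc_mem, msc_const, fun _ => msc_not, fun _ _ => msc_and,
    fun _ _ => msc_or, fun _ _ => msc_imp, fun x _ => msc_ex x, fun x _ => msc_all x,
    fun X _ => msc_exS X, fun X _ => msc_allS X, msc_finAll, msc_finEx, fun h _ => msc_exs h,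
    fun h _ => msc_exsS h⟩

end Pool.Agent.H95.MC
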